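import Pool.Agent.Helper57.NX.Defs2
import Pool.Agent.Helper5.NX.Basic

/-!
# NX-18 base, cells
-/

set_option autoImplicit false

open Finset
open scoped BigOperators ComplexConjugate

namespace Pool.Agent.Helper57.NX

noncomputable section

/-! ### Transport of sequences to a cyclic group -/

theorem mod_var7 (g : ℕ → ℂ) (hg : ∀ v, ‖g v‖ ≤ 1) (B X : ℝ) (hB : 0 ≤ B) (hX : 0 < X)
    (hv : ∀ a l : ℕ, ∑ j ∈ range l, ‖g (a + j + 1) - g (a + j)‖ ≤ B * (l / X + 1)) (n : ℕ)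
    (hn : 0 < n) : ∀ l v : ℕ, v < n →
      ∑ j ∈ range l, ‖g ((v + j + 1) % n) - g ((v + j) % n)‖ ≤
        B * (l / X + 1) + (B + 2) * ((v + l) / n : ℕ) := by
  intro l
  induction l using Nat.strong_induction_on with
  | _ l ih =>
    intro v hvn
    by_cases h : v + l < n
    · have h1 : ∀ j ∈ range l, ‖g ((v + j + 1) % n) - g ((v + j) % n)‖ =
          ‖g (v + j + 1) - g (v + j)‖ := by
        intro j hj
        rw [mem_range] at hj
        rw [Nat.mod_eq_of_lt (by omega), Nat.mod_eq_of_lt (by omega)]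
      rw [sum_congr rfl h1]
      have h2 := hv v l
      have h3 : 0 ≤ (B + 2) * ((v + l) / n : ℕ) := by positivity
      linarith
    · push Not at h
      obtain ⟨l2, hl2⟩ : ∃ l2, l = (n - 1 - v) + (1 + l2) := ⟨l - (n - v), by omega⟩
      have e1 : (v + l) / n = 1 + (0 + l2) / n := by
        have : v + l = n * 1 + l2 := by omega
        rw [this, Nat.mul_add_div hn, zero_add]
      have i1 := ih l2 (by omega) 0 hn
      rw [e1, hl2, sum_range_add, sum_range_add, sum_range_one]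
      have s1 : ∑ j ∈ range (n - 1 - v), ‖g ((v + j + 1) % n) - g ((v + j) % n)‖ ≤
          B * ((n - 1 - v : ℕ) / X + 1) := by
        have h1 : ∀ j ∈ range (n - 1 - v), ‖g ((v + j + 1) % n) - g ((v + j) % n)‖ =
            ‖g (v + j + 1) - g (v + j)‖ := by
          intro j hj
          rw [mem_range] at hj
          rw [Nat.mod_eq_of_lt (by omega), Nat.mod_eq_of_lt (by omega)]
        rw [sum_congr rfl h1]
        exact hv v _
      have s2 : ‖g ((v + (n - 1 - v + 0) + 1) % n) - g ((v + (n - 1 - v + 0)) % n)‖ ≤ 2 := by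
        refine (norm_sub_le _ _).trans ?_
        have := hg ((v + (n - 1 - v + 0) + 1) % n)
        have := hg ((v + (n - 1 - v + 0)) % n)
        linarith
      have s3 : ∑ j ∈ range l2, ‖g ((v + (n - 1 - v + (1 + j)) + 1) % n) -
          g ((v + (n - 1 - v + (1 + j))) % n)‖ =
          ∑ j ∈ range l2, ‖g ((0 + j + 1) % n) - g ((0 + j) % n)‖ := by
        refine sum_congr rfl fun j _ => ?_
        have e2 : v + (n - 1 - v + (1 + j)) + 1 = (0 + j + 1) + n := by omega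
        have e3 : v + (n - 1 - v + (1 + j)) = (0 + j) + n := by omega
        rw [e2, e3, Nat.add_mod_right, Nat.add_mod_right]
      rw [s3]
      push_cast at s1 s2 i1 ⊢
      have hXne : X ≠ 0 := hX.ne'
      have e4 : B * (((n - 1 - v : ℕ) + (1 + (l2 : ℝ))) / X + 1) =
          B * ((n - 1 - v : ℕ) / X + 1) + B * (l2 / X + 1) - B + B / X := by
        field_simp
        ring
      have h5 : 0 ≤ B / X := by positivity
      rw [e4]
      nlinarith [s1, s2, i1, h5]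

/-- Transport of a sequence to `ZMod n`. -/
theorem tv_transport7 (g : ℕ → ℂ) (hg : ∀ v, ‖g v‖ ≤ 1) (B X : ℝ) (hB : 0 ≤ B) (hX : 0 < X)
    (hv : ∀ a l : ℕ, ∑ j ∈ range l, ‖g (a + j + 1) - g (a + j)‖ ≤ B * (l / X + 1)) (n : ℕ)
    [NeZero n] (hn : X ≤ n) : Adm (2 * B + 2) X (fun y : ZMod n => g y.val) := by
  refine ⟨fun y => hg _, fun y l => ?_⟩
  have hn0 : 0 < n := Nat.pos_of_ne_zero (NeZero.ne n)
  have h1 : ∀ j ∈ range l, ‖g (y + (j : ZMod n) + 1).val - g (y + (j : ZMod n)).val‖ =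
      ‖g ((y.val + j + 1) % n) - g ((y.val + j) % n)‖ := by
    intro j _
    have e1 : (y + (j : ZMod n)).val = (y.val + j) % n := by
      rw [← ZMod.val_natCast]
      congr 1
      push_cast
      rw [ZMod.natCast_zmod_val]
    have e2 : (y + (j : ZMod n) + 1).val = (y.val + j + 1) % n := by
      rw [← ZMod.val_natCast]
      congr 1
      push_cast
      rw [ZMod.natCast_zmod_val]
    rw [e1, e2]
  rw [sum_congr rfl h1]
  refine (mod_var7 g hg B X hB hX hv n hn0 l y.val (ZMod.val_lt y)).trans ?_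
  have h2 : (((y.val + l) / n : ℕ) : ℝ) ≤ l / X + 1 := by
    have h3 : (((y.val + l) / n : ℕ) : ℝ) ≤ ((y.val + l : ℕ) : ℝ) / n := Nat.cast_div_le
    refine h3.trans ?_
    have hnR : (0 : ℝ) < n := by exact_mod_cast hn0
    have h4 : (y.val : ℝ) ≤ n := by exact_mod_cast (ZMod.val_lt y).le
    push_cast
    rw [add_div]
    have h5 : (y.val : ℝ) / n ≤ 1 := by rw [div_le_one hnR]; exact h4
    have h6 : (l : ℝ) / n ≤ l / X := by
      exact div_le_div_of_nonneg_left (Nat.cast_nonneg _) hX hn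
    linarith
  have h7 := mul_le_mul_of_nonneg_left h2 (show 0 ≤ B + 2 by linarith)
  nlinarith [h7]

/-- Variation along natural numbers. -/
theorem tv_nat7 {N : ℕ} {B X : ℝ} {f : ZMod N → ℂ} (h : TV B X f) (r : ZMod N) (a l : ℕ) :
    ∑ j ∈ range l, ‖f (r + ((a + j + 1 : ℕ) : ZMod N)) - f (r + ((a + j : ℕ) : ZMod N))‖ ≤
      B * (l / X + 1) := by
  refine le_trans (le_of_eq ?_) (h (r + (a : ZMod N)) l)
  refine sum_congr rfl fun j _ => ?_
  congr 3 <;> push_cast <;> ring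

/-- Cutting off. -/
theorem tv_cut7 (g : ℕ → ℂ) (hg : ∀ v, ‖g v‖ ≤ 1) (B X : ℝ) (hX : 0 < X)
    (hv : ∀ a l : ℕ, ∑ j ∈ range l, ‖g (a + j + 1) - g (a + j)‖ ≤ B * (l / X + 1)) (R : ℕ)
    (a l : ℕ) :
    ∑ j ∈ range l, ‖(if a + j + 1 < R then g (a + j + 1) else 0) -
      (if a + j < R then g (a + j) else 0)‖ ≤ (B + 1) * (l / X + 1) := by
  have h1 : ∀ j ∈ range l, ‖(if a + j + 1 < R then g (a + j + 1) else 0) -
      (if a + j < R then g (a + j) else 0)‖ ≤ ‖g (a + j + 1) - g (a + j)‖ +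
        (if j = R - 1 - a then 1 else 0) := by
    intro j _
    by_cases h1 : a + j + 1 < R
    · have h2 : a + j < R := by omega
      rw [if_pos h1, if_pos h2]
      have : (0 : ℝ) ≤ (if j = R - 1 - a then 1 else 0) := by split_ifs <;> norm_num
      linarith
    · rw [if_neg h1]
      by_cases h2 : a + j < R
      · have h3 : j = R - 1 - a := by omega
        rw [if_pos h2, if_pos h3, zero_sub, norm_neg]
        have := hg (a + j)
        have := norm_nonneg (g (a + j + 1) - g (a + j))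
        linarith
      · rw [if_neg h2, sub_zero, norm_zero]
        have : (0 : ℝ) ≤ (if j = R - 1 - a then 1 else 0) := by split_ifs <;> norm_num
        have := norm_nonneg (g (a + j + 1) - g (a + j))
        linarith
  refine (sum_le_sum h1).trans ?_
  rw [sum_add_distrib]
  have h2 : ∑ j ∈ range l, (if j = R - 1 - a then (1 : ℝ) else 0) ≤ 1 := by
    rw [sum_ite_eq']
    split_ifs <;> norm_num
  have h3 := hv a l
  have h4 : (0 : ℝ) ≤ l / X := by positivity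
  nlinarith

theorem sum_val7 (n : ℕ) [NeZero n] (G : ℕ → ℂ) :
    ∑ y : ZMod n, G y.val = ∑ v ∈ range n, G v := by
  refine sum_bij' (i := fun x _ => x.val) (j := fun j _ => (j : ZMod n)) ?_ ?_ ?_ ?_ ?_
  · intro x _
    exact mem_range.2 (ZMod.val_lt x)
  · intro j _
    exact mem_univ _
  · intro x _
    exact ZMod.natCast_zmod_val x
  · intro j hj
    exact ZMod.val_natCast_of_lt (mem_range.1 hj)
  · intro x _
    rfl

/-- The local form on `ZMod (2 R)`. -/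
theorem local7 {m N : ℕ} (R : ℕ) (hR : 1 ≤ R) [NeZero (2 * R)] (f0 : ZMod N → ℂ)
    (f : Fin m → ZMod N → ℂ) (r : ZMod N) (b : Fin m → ℤ) (hb0 : ∀ i, 0 ≤ b i)
    (hb : ∀ i, b i ≤ R) :
    𝔼 y : ZMod (2 * R), (if y.val < R then f0 (r + (y.val : ZMod N)) else 0) *
      ∏ i, f i (r + ((y + (b i : ZMod (2 * R))).val : ZMod N)) =
    (1 / 2) * 𝔼 t ∈ range R, f0 (r + (t : ZMod N)) *
      ∏ i, f i (r + (t : ZMod N) + (b i : ZMod N)) := by
  have hRC : (R : ℂ) ≠ 0 := by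
    have : R ≠ 0 := by omega
    exact_mod_cast this
  rw [Fintype.expect_eq_sum_div_card, ZMod.card, expect_eq_sum_div_card, card_range]
  have h1 : ∀ y : ZMod (2 * R), (if y.val < R then f0 (r + (y.val : ZMod N)) else 0) *
      ∏ i, f i (r + ((y + (b i : ZMod (2 * R))).val : ZMod N)) =
      (fun v : ℕ => if v < R then f0 (r + (v : ZMod N)) *
        ∏ i, f i (r + (v : ZMod N) + (b i : ZMod N)) else 0) y.val := by
    intro y
    by_cases h : y.val < R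
    · simp only [if_pos h]
      congr 1
      refine prod_congr rfl fun i _ => ?_
      congr 1
      obtain ⟨n, hn⟩ := Int.eq_ofNat_of_zero_le (hb0 i)
      have hnR : n ≤ R := by
        have := hb i
        rw [hn] at this
        exact_mod_cast this
      rw [hn, Int.cast_natCast, Int.cast_natCast]
      have e1 : (y + (n : ZMod (2 * R))).val = y.val + n := by
        have e2 : y + (n : ZMod (2 * R)) = ((y.val + n : ℕ) : ZMod (2 * R)) := by
          push_cast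
          rw [ZMod.natCast_zmod_val]
        rw [e2, ZMod.val_natCast_of_lt (by omega)]
      rw [e1]
      push_cast
      ring
    · simp only [if_neg h, zero_mul]
  rw [sum_congr rfl fun y _ => h1 y, sum_val7 (2 * R) (fun v : ℕ => if v < R then
    f0 (r + (v : ZMod N)) * ∏ i, f i (r + (v : ZMod N) + (b i : ZMod N)) else 0)]
  have h2 : ∑ v ∈ range (2 * R), (if v < R then f0 (r + (v : ZMod N)) *
        ∏ i, f i (r + (v : ZMod N) + (b i : ZMod N)) else 0) =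
      ∑ v ∈ range R, f0 (r + (v : ZMod N)) *
        ∏ i, f i (r + (v : ZMod N) + (b i : ZMod N)) := by
    rw [← sum_filter]
    refine sum_congr ?_ fun _ _ => rfl
    ext v
    simp only [mem_filter, mem_range]
    omega
  rw [h2]
  push_cast
  field_simp

/-- The local average at `r`. -/
def loc7 {m N : ℕ} (S : Sys (m + 1)) (c : Fin (m + 1) → ℝ) (f0 : ZMod N → ℂ)
    (f : Fin (m + 1) → ZMod N → ℂ) (R : ℕ) (r : ZMod N) : ℂ :=
  𝔼 k ∈ S.I, f (Fin.last m) (r + (S.a c (Fin.last m) k : ZMod N)) *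
    𝔼 t ∈ range R, f0 (r + (t : ZMod N)) *
      ∏ i : Fin m, f i.castSucc (r + (t : ZMod N) + (S.a c i.castSucc k : ZMod N))

theorem form_loc7 {m N : ℕ} [NeZero N] (S : Sys (m + 1)) (c : Fin (m + 1) → ℝ)
    (f0 : ZMod N → ℂ) (hf0 : ∀ x, ‖f0 x‖ ≤ 1) (f : Fin (m + 1) → ZMod N → ℂ)
    (hf : ∀ i x, ‖f i x‖ ≤ 1) (B X : ℝ) (hX : 0 < X) (hT : TV B X (f (Fin.last m)))
    (R : ℕ) (hR : 1 ≤ R) :
    ‖form S c 1 f0 f - 𝔼 r, loc7 S c f0 f R r‖ ≤ R * B * (1 / X + 1 / N) := by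
  have hB := hT.nonneg
  have h1 : form S c 1 f0 f - 𝔼 r, loc7 S c f0 f R r =
      𝔼 k ∈ S.I, 𝔼 t ∈ range R, 𝔼 x : ZMod N, (f0 (x + (t : ZMod N)) *
        ∏ i : Fin m, f i.castSucc (x + (t : ZMod N) + (S.a c i.castSucc k : ZMod N))) *
        (f (Fin.last m) (x + (S.a c (Fin.last m) k : ZMod N) + ((t : ℤ) : ZMod N)) -
          f (Fin.last m) (x + (S.a c (Fin.last m) k : ZMod N))) := by
    unfold form loc7
    rw [expect_comm (s := univ), ← expect_sub_distrib]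
    refine expect_congr rfl fun k _ => ?_
    have e1 : (1 : ℕ → ℂ) k * 𝔼 x : ZMod N, f0 x * ∏ i, f i (x + (S.a c i k : ZMod N)) =
        𝔼 t ∈ range R, 𝔼 x : ZMod N, f0 (x + (t : ZMod N)) *
          ∏ i, f i (x + (t : ZMod N) + (S.a c i k : ZMod N)) := by
      rw [Pi.one_apply, one_mul]
      have : ∀ t ∈ range R, 𝔼 x : ZMod N, f0 (x + (t : ZMod N)) *
          ∏ i, f i (x + (t : ZMod N) + (S.a c i k : ZMod N)) =
          𝔼 x : ZMod N, f0 x * ∏ i, f i (x + (S.a c i k : ZMod N)) := fun t _ =>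
        expect_shift (fun x => f0 x * ∏ i, f i (x + (S.a c i k : ZMod N))) (t : ZMod N)
      rw [expect_congr rfl this, expect_const (nonempty_range_iff.2 (by omega))]
    rw [e1]
    have e2 : ∀ x : ZMod N, f (Fin.last m) (x + (S.a c (Fin.last m) k : ZMod N)) *
        𝔼 t ∈ range R, f0 (x + (t : ZMod N)) *
          ∏ i : Fin m, f i.castSucc (x + (t : ZMod N) + (S.a c i.castSucc k : ZMod N)) =
        𝔼 t ∈ range R, f (Fin.last m) (x + (S.a c (Fin.last m) k : ZMod N)) *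
          (f0 (x + (t : ZMod N)) *
          ∏ i : Fin m, f i.castSucc (x + (t : ZMod N) + (S.a c i.castSucc k : ZMod N))) :=
      fun x => mul_expect _ _ _
    rw [expect_congr rfl fun x _ => e2 x, expect_comm (s := univ), ← expect_sub_distrib]
    refine expect_congr rfl fun t _ => ?_
    rw [← expect_sub_distrib]
    refine expect_congr rfl fun x _ => ?_
    rw [Fin.prod_univ_castSucc, Int.cast_natCast,
      show x + (S.a c (Fin.last m) k : ZMod N) + (t : ZMod N) =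
        x + (t : ZMod N) + (S.a c (Fin.last m) k : ZMod N) by ring]
    ring
  rw [h1]
  refine norm_expect_le_of5 _ _ (by positivity) fun k _ => ?_
  refine norm_expect_le_of5 _ _ (by positivity) fun t ht => ?_
  refine (norm_expect_le5 _ _).trans ?_
  have h2 : ∀ x ∈ (univ : Finset (ZMod N)), ‖(f0 (x + (t : ZMod N)) *
        ∏ i : Fin m, f i.castSucc (x + (t : ZMod N) + (S.a c i.castSucc k : ZMod N))) *
        (f (Fin.last m) (x + (S.a c (Fin.last m) k : ZMod N) + ((t : ℤ) : ZMod N)) -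
          f (Fin.last m) (x + (S.a c (Fin.last m) k : ZMod N)))‖ ≤
      (fun x => ‖f (Fin.last m) (x + ((t : ℤ) : ZMod N)) - f (Fin.last m) x‖)
        (x + (S.a c (Fin.last m) k : ZMod N)) := by
    intro x _
    rw [norm_mul]
    have h3 : ‖f0 (x + (t : ZMod N)) *
        ∏ i : Fin m, f i.castSucc (x + (t : ZMod N) + (S.a c i.castSucc k : ZMod N))‖ ≤ 1 := by
      rw [norm_mul, norm_prod]
      refine mul_le_one₀ (hf0 _) (prod_nonneg fun _ _ => norm_nonneg _) ?_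
      exact prod_le_one (fun _ _ => norm_nonneg _) fun i _ => hf _ _
    exact mul_le_of_le_one_left (norm_nonneg _) h3
  refine (expect_le_expect h2).trans ?_
  rw [expect_shift (fun x => ‖f (Fin.last m) (x + ((t : ℤ) : ZMod N)) - f (Fin.last m) x‖)
    (S.a c (Fin.last m) k : ZMod N)]
  refine (hT.l1_shift hX (t : ℤ)).trans ?_
  have h3 : (t : ℝ) ≤ R := by exact_mod_cast (mem_range.1 ht).le
  rw [Int.cast_natCast, Nat.abs_cast, mul_assoc, mul_assoc]
  exact mul_le_mul_of_nonneg_right h3 (by positivity)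

/-! ### Sizes -/

theorem exists_gap7 {m : ℕ} (g : Fin m → ℝ) (hg : ∀ i, 0 < g i) :
    ∃ κ : ℝ, 0 < κ ∧ ∀ i, κ ≤ g i := by
  refine ⟨1 / (1 + ∑ i, 1 / g i), ?_, fun i => ?_⟩
  · have : 0 ≤ ∑ i, 1 / g i := sum_nonneg fun i _ => by have := hg i; positivity
    positivity
  · have h0 : 0 ≤ ∑ i, 1 / g i := sum_nonneg fun i _ => by have := hg i; positivity
    have h1 : 1 / g i ≤ ∑ i, 1 / g i :=
      single_le_sum (f := fun i => 1 / g i) (fun i _ => by have := hg i; positivity)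
        (mem_univ i)
    rw [div_le_iff₀ (by positivity)]
    have h2 : g i * (1 / g i) ≤ g i * (1 + ∑ i, 1 / g i) :=
      mul_le_mul_of_nonneg_left (by linarith) (hg i).le
    rwa [mul_one_div_cancel (hg i).ne'] at h2

/-- Bounds for the sequences. -/
theorem a_bound7 {m : ℕ} (S : Sys m) (c : Fin m → ℝ) (i : Fin m) (hci : 0 ≤ c i)
    (hP : 0 ≤ S.P i) (hD : 0 < S.D) (hρ0 : 0 ≤ S.ρ) (hρ1 : S.ρ ≤ 1)
    (hu : (S.u : ℝ) + S.T ≤ 2 * S.D) {k : ℕ} (hk : k ∈ S.I) :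
    0 ≤ S.a c i k ∧ (S.a c i k : ℝ) ≤ S.P i * 2 ^ (c i) := by
  have hk' : k + 1 ≤ S.u + S.T := by
    have := (mem_Ico.mp hk).2
    omega
  have hk2 : (k : ℝ) + 1 ≤ S.u + S.T := by exact_mod_cast hk'
  have ht0 : 0 ≤ S.t k := by
    unfold Sys.t
    positivity
  have ht : S.t k ≤ 2 := by
    unfold Sys.t
    rw [div_le_iff₀ hD]
    linarith
  have h1 : S.t k ^ c i ≤ 2 ^ c i := Real.rpow_le_rpow ht0 ht hci
  constructor
  · exact Int.floor_nonneg.mpr (mul_nonneg hP (Real.rpow_nonneg ht0 _))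
  · exact (Int.floor_le _).trans (mul_le_mul_of_nonneg_left h1 hP)

/-- One good base point. -/
theorem good_pt7 {m : ℕ} (c : Fin (m + 1) → ℝ) (x0' : ℝ) (C' : ℕ) (σ' D0' ε : ℝ)
    (H : ∀ (S : Sys m) (N : ℕ) [NeZero N], D0' ≤ S.D → Good S (fun i => c i.castSucc) N x0' →
      ∀ δ : ℝ, S.D ^ (-σ') ≤ δ → δ ≤ 1 / 2 →
      ∀ (h : ℕ → ℂ) (f0 : ZMod N → ℂ) (f : Fin m → ZMod N → ℂ),
      (∀ k, ‖h k‖ ≤ 1) → Adm δ⁻¹ S.Q f0 → (∀ i, Adm δ⁻¹ S.Q (f i)) →
      δ ≤ ‖form S (fun i => c i.castSucc) h f0 f‖ →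
      ∃ θ : Fin m → ℝ, (∀ i, |θ i| ≤ δ⁻¹ ^ C' / S.Q) ∧
        ∀ K : ℕ, 1 ≤ K → (K : ℝ) ≤ S.D ^ (1 - ε) →
          δ ^ C' ≤ 𝔼 k ∈ S.I, ‖𝔼 j ∈ range K, h (k + j) *
            e (∑ i, θ i * S.P i * (S.t (k + j)) ^ (c i.castSucc))‖)
    (S : Sys (m + 1)) (N : ℕ) [NeZero N] (hD0 : D0' ≤ S.D) (R : ℕ) (hR : 1 ≤ R)
    (hQ0 : 0 < (S.Q : ℝ)) (hQR : (S.Q : ℝ) ≤ 2 * R)
    (hG : Good S.init (fun i => c i.castSucc) (2 * R) x0')
    (δ : ℝ) (hδp : 0 < δ) (hδ0 : S.D ^ (-σ') ≤ δ ^ 4) (hδ1 : δ ≤ 1 / 2)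
    (f0 : ZMod N → ℂ) (f : Fin (m + 1) → ZMod N → ℂ) (hf0 : Adm δ⁻¹ S.Q f0)
    (hf : ∀ i, Adm δ⁻¹ S.Q (f i))
    (ha0 : ∀ i : Fin m, ∀ k ∈ S.I, 0 ≤ S.a c i.castSucc k)
    (ha1 : ∀ i : Fin m, ∀ k ∈ S.I, S.a c i.castSucc k ≤ (R : ℤ))
    (r : ZMod N) (hr : δ / 4 ≤ ‖loc7 S c f0 f R r‖) :
    ∃ θ : Fin m → ℝ, (∀ i, |θ i| ≤ δ⁻¹ ^ (4 * C') / S.Q) ∧
        ∀ K : ℕ, 1 ≤ K → (K : ℝ) ≤ S.D ^ (1 - ε) →
          δ ^ (4 * C') ≤ locCorr S c (f (Fin.last m)) (fun _ => θ) K r := by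
  have : NeZero (2 * R) := ⟨by omega⟩
  have hu : (2 : ℝ) ≤ δ⁻¹ := by
    rw [le_inv_comm₀ (by norm_num) hδp]
    linarith
  have hu4 : 2 * (δ⁻¹ + 1) + 2 ≤ (δ ^ 4)⁻¹ := by
    rw [← inv_pow]
    have h2 : 4 ≤ δ⁻¹ ^ 2 := by nlinarith
    have h3 : 4 * δ⁻¹ ^ 2 ≤ δ⁻¹ ^ 4 := by nlinarith
    nlinarith
  have hB0 : (0 : ℝ) ≤ δ⁻¹ := by linarith
  -- the functions on the cyclic group
  have hAf : ∀ i : Fin m, Adm (δ ^ 4)⁻¹ S.Q
      (fun y : ZMod (2 * R) => f i.castSucc (r + (y.val : ZMod N))) := by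
    intro i
    have h1 := tv_transport7 (fun v => f i.castSucc (r + (v : ZMod N)))
      (fun v => (hf i.castSucc).bdd _) δ⁻¹ S.Q hB0 hQ0
      (fun a l => tv_nat7 (hf i.castSucc).tv r a l) (2 * R) (by push_cast; exact hQR)
    exact h1.mono (by linarith) hQ0 (le_refl _)
  have hAf0 : Adm (δ ^ 4)⁻¹ S.Q
      (fun y : ZMod (2 * R) => if y.val < R then f0 (r + (y.val : ZMod N)) else 0) := by
    have h1 := tv_transport7 (fun v => if v < R then f0 (r + (v : ZMod N)) else 0)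
      (fun v => by
        by_cases hv : v < R
        · simp only [if_pos hv]
          exact hf0.bdd _
        · simp only [if_neg hv, norm_zero]
          norm_num) (δ⁻¹ + 1) S.Q (by linarith) hQ0
      (fun a l => tv_cut7 (fun v => f0 (r + (v : ZMod N))) (fun v => hf0.bdd _) δ⁻¹ S.Q hQ0
        (fun a l => tv_nat7 hf0.tv r a l) R a l) (2 * R) (by push_cast; exact hQR)
    exact h1.mono hu4 hQ0 (le_refl _)
  have hform : form S.init (fun i => c i.castSucc)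
      (fun k => f (Fin.last m) (r + (S.a c (Fin.last m) k : ZMod N)))
      (fun y : ZMod (2 * R) => if y.val < R then f0 (r + (y.val : ZMod N)) else 0)
      (fun i y => f i.castSucc (r + (y.val : ZMod N))) = (1 / 2) * loc7 S c f0 f R r := by
    unfold form loc7
    rw [mul_expect]
    refine expect_congr rfl fun k hk => ?_
    have h1 := local7 R hR f0 (fun i : Fin m => f i.castSucc) r
      (fun i => S.a c i.castSucc k) (fun i => ha0 i k hk) (fun i => ha1 i k hk)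
    have h2 : (𝔼 y : ZMod (2 * R), (if y.val < R then f0 (r + (y.val : ZMod N)) else 0) *
        ∏ i : Fin m, f i.castSucc (r + ((y + (S.init.a (fun i => c i.castSucc) i k :
          ZMod (2 * R))).val : ZMod N))) =
        (1 / 2) * 𝔼 t ∈ range R, f0 (r + (t : ZMod N)) *
      ∏ i : Fin m, f i.castSucc (r + (t : ZMod N) + (S.a c i.castSucc k : ZMod N)) := h1
    rw [h2]
    ring
  have hδ4 : δ ^ 4 ≤ δ / 8 := by nlinarith [pow_pos hδp 3, pow_pos hδp 2]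
  obtain ⟨θ, h1, h2⟩ := H S.init (2 * R) hD0 hG (δ ^ 4) hδ0 (by linarith) 
    (fun k => f (Fin.last m) (r + (S.a c (Fin.last m) k : ZMod N)))
    (fun y : ZMod (2 * R) => if y.val < R then f0 (r + (y.val : ZMod N)) else 0)
    (fun i y => f i.castSucc (r + (y.val : ZMod N)))
    (fun k => (hf (Fin.last m)).bdd _) hAf0 hAf (by
      rw [hform, norm_mul]
      have : ‖(1 / 2 : ℂ)‖ = 1 / 2 := by norm_num
      rw [this]
      linarith)
  refine ⟨θ, fun i => ?_, fun K hK1 hK2 => ?_⟩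
  · refine (h1 i).trans (le_of_eq ?_)
    rw [← inv_pow, ← pow_mul]
    rfl
  · have h3 := h2 K hK1 hK2
    rw [← pow_mul] at h3
    exact h3

/-- The sizes. -/
theorem sizes7 {m : ℕ} (c : Fin (m + 1) → ℝ) (hc : StrictMono c) (hc0 : ∀ i, 0 < c i)
    (s κ x0 σ M : ℝ) (_hκ : 0 < κ) (hκi : ∀ i : Fin m, κ ≤ s - c i.castSucc) (hκs : κ ≤ s)
    (hκc : κ ≤ c (Fin.last m) - s) (hx0 : x0 ≤ κ / 8) (hσ0 : 0 < σ) (hσ : σ ≤ κ / 40)
    (hM : M = 2 ^ (c (Fin.last m)) + 3) (S : Sys (m + 1)) (N : ℕ) [NeZero N]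
    (hG : Good S c N x0) (hD : 1 ≤ S.D) (hDM : M ≤ S.D ^ (κ / 2)) (δ : ℝ) (hδp : 0 < δ)
    (hδ0 : S.D ^ (-σ) ≤ δ) (hδ1 : δ ≤ 1 / 2) (X : ℝ) (hX : S.Q * S.D ^ (s - σ) ≤ X) (R : ℕ)
    (hRdef : R = ⌊δ ^ 4 * min X (S.Q * S.D ^ s)⌋₊) :
    0 < (S.Q : ℝ) ∧ 0 < X ∧ 1 ≤ R ∧ (S.Q : ℝ) ≤ R ∧
      (R : ℝ) * δ⁻¹ * (1 / X + 1 / N) ≤ δ / 2 ∧
      ∀ i : Fin m, 0 ≤ S.P i.castSucc ∧ S.P i.castSucc * 2 ^ (c i.castSucc) ≤ R ∧
        S.P i.castSucc ≤ R := by
  have hDp : 0 < S.D := by linarith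
  have hQ1 : 1 ≤ (S.Q : ℝ) := by
    refine le_trans ?_ hG.Q1
    exact Real.one_le_rpow hD (by norm_num)
  have hQp : 0 < (S.Q : ℝ) := by linarith
  have h2c : 0 < (2 : ℝ) ^ c (Fin.last m) := Real.rpow_pos_of_pos (by norm_num) _
  have hXp : 0 < X := lt_of_lt_of_le (mul_pos hQp (Real.rpow_pos_of_pos hDp _)) hX
  -- the lower bound for δ ^ 4
  have hδ4 : S.D ^ (-(κ / 10)) ≤ δ ^ 4 := by
    have h1 : S.D ^ (-(κ / 10)) ≤ (S.D ^ (-σ)) ^ 4 := by
      rw [← Real.rpow_natCast, ← Real.rpow_mul hDp.le]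
      refine Real.rpow_le_rpow_of_exponent_le hD ?_
      push_cast
      linarith
    exact h1.trans (pow_le_pow_left₀ (Real.rpow_nonneg hDp.le _) hδ0 4)
  have hX' : S.Q * S.D ^ (s - κ / 40) ≤ min X (S.Q * S.D ^ s) := by
    refine le_min (le_trans ?_ hX) ?_
    · exact mul_le_mul_of_nonneg_left (Real.rpow_le_rpow_of_exponent_le hD (by linarith)) hQp.le
    · exact mul_le_mul_of_nonneg_left (Real.rpow_le_rpow_of_exponent_le hD (by linarith)) hQp.le
  have hlow : S.Q * S.D ^ (s - κ / 8) ≤ δ ^ 4 * min X (S.Q * S.D ^ s) := by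
    have h1 : S.Q * S.D ^ (s - κ / 8) = S.D ^ (-(κ / 10)) * (S.Q * S.D ^ (s - κ / 40)) := by
      have : s - κ / 8 = -(κ / 10) + (s - κ / 40) := by ring
      rw [this, Real.rpow_add hDp]
      ring
    rw [h1]
    exact mul_le_mul hδ4 hX' (mul_nonneg hQp.le (Real.rpow_nonneg hDp.le _)) (by positivity)
  have hmin0 : 0 ≤ δ ^ 4 * min X (S.Q * S.D ^ s) := by
    refine le_trans ?_ hlow
    exact mul_nonneg hQp.le (Real.rpow_nonneg hDp.le _)
  have hR1 : (R : ℝ) ≤ δ ^ 4 * min X (S.Q * S.D ^ s) := by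
    rw [hRdef]
    exact Nat.floor_le hmin0
  have hR2 : S.Q * S.D ^ (s - κ / 8) - 1 ≤ R := by
    have := Nat.lt_floor_add_one (δ ^ 4 * min X (S.Q * S.D ^ s))
    rw [← hRdef] at this
    linarith
  -- comparison with the sequences
  have hcmp : ∀ c' : ℝ, κ ≤ s - c' → 0 ≤ c' →
      S.Q * S.D ^ (c' + κ / 8) * 2 ^ c (Fin.last m) + 2 ≤ R := by
    intro c' h1 h2
    have h3 : S.Q * S.D ^ (c' + κ / 8) * M ≤ S.Q * S.D ^ (s - κ / 8) := by
      have h4 : S.D ^ (c' + κ / 8) * S.D ^ (κ / 2) ≤ S.D ^ (s - κ / 8) := by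
        rw [← Real.rpow_add hDp]
        exact Real.rpow_le_rpow_of_exponent_le hD (by linarith)
      have h5 : S.D ^ (c' + κ / 8) * M ≤ S.D ^ (c' + κ / 8) * S.D ^ (κ / 2) :=
        mul_le_mul_of_nonneg_left hDM (Real.rpow_nonneg hDp.le _)
      rw [mul_assoc]
      exact mul_le_mul_of_nonneg_left (h5.trans h4) hQp.le
    have h6 : 1 ≤ S.Q * S.D ^ (c' + κ / 8) := by
      have : 1 ≤ S.D ^ (c' + κ / 8) := Real.one_le_rpow hD (by linarith)
      nlinarith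
    rw [hM] at h3
    nlinarith
  have hQR : (S.Q : ℝ) + 2 ≤ R := by
    refine le_trans ?_ (hcmp 0 (by linarith) (le_refl _))
    have h1 : 1 ≤ S.D ^ (0 + κ / 8) := Real.one_le_rpow hD (by linarith)
    have h2 : (1 : ℝ) ≤ 2 ^ c (Fin.last m) :=
      Real.one_le_rpow (by norm_num) (hc0 _).le
    have h3 : (S.Q : ℝ) ≤ S.Q * S.D ^ (0 + κ / 8) := le_mul_of_one_le_right hQp.le h1
    have h4 : (S.Q : ℝ) * S.D ^ (0 + κ / 8) ≤ S.Q * S.D ^ (0 + κ / 8) * 2 ^ c (Fin.last m) :=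
      le_mul_of_one_le_right (by positivity) h2
    linarith
  -- N is large
  have hN : S.Q * S.D ^ s ≤ N := by
    have h1 := hG.N1 (Fin.last m)
    have h2 := hG.P1 (Fin.last m)
    have h3 : S.Q * S.D ^ (c (Fin.last m) - x0) * S.D ^ (-x0) ≤ N := by
      have h4 : (N : ℝ) * S.D ^ x0 * S.D ^ (-x0) = N := by
        rw [mul_assoc, ← Real.rpow_add hDp, add_neg_cancel, Real.rpow_zero, mul_one]
      rw [← h4]
      exact mul_le_mul_of_nonneg_right (h2.trans h1) (Real.rpow_nonneg hDp.le _)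
    refine le_trans ?_ h3
    rw [mul_assoc, ← Real.rpow_add hDp]
    exact mul_le_mul_of_nonneg_left (Real.rpow_le_rpow_of_exponent_le hD (by linarith)) hQp.le
  have hNp : (0 : ℝ) < N := by exact_mod_cast Nat.pos_of_ne_zero (NeZero.ne N)
  refine ⟨hQp, hXp, ?_, by linarith, ?_, fun i => ?_⟩
  · have : (1 : ℝ) ≤ R := by linarith
    exact_mod_cast this
  · have h1 : (R : ℝ) / X ≤ δ ^ 4 := by
      rw [div_le_iff₀ hXp]
      exact hR1.trans (mul_le_mul_of_nonneg_left (min_le_left _ _) (by positivity))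
    have h2 : (R : ℝ) / N ≤ δ ^ 4 := by
      rw [div_le_iff₀ hNp]
      exact hR1.trans (mul_le_mul_of_nonneg_left ((min_le_right _ _).trans hN) (by positivity))
    have h3 : (R : ℝ) * δ⁻¹ * (1 / X + 1 / N) = δ⁻¹ * (R / X + R / N) := by
      field_simp
    rw [h3]
    have h4 : δ⁻¹ * (R / X + R / N) ≤ δ⁻¹ * (2 * δ ^ 4) :=
      mul_le_mul_of_nonneg_left (by linarith) (by positivity)
    have h5 : δ⁻¹ * (2 * δ ^ 4) = 2 * δ ^ 3 := by
      field_simp
    rw [h5] at h4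
    refine h4.trans ?_
    nlinarith [pow_pos hδp 2]
  · have hci := hc0 i.castSucc
    have hP0 : 0 ≤ S.P i.castSucc :=
      le_trans (mul_nonneg hQp.le (Real.rpow_nonneg hDp.le _)) (hG.P1 i.castSucc)
    have hP : S.P i.castSucc ≤ S.Q * S.D ^ (c i.castSucc + κ / 8) := by
      refine (hG.P2 i.castSucc).trans ?_
      exact mul_le_mul_of_nonneg_left (Real.rpow_le_rpow_of_exponent_le hD (by linarith)) hQp.le
    have hcc : c i.castSucc ≤ c (Fin.last m) := hc.monotone (Fin.le_last _)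
    have h2 : (2 : ℝ) ^ c i.castSucc ≤ 2 ^ c (Fin.last m) :=
      Real.rpow_le_rpow_of_exponent_le (by norm_num) hcc
    have h3 := hcmp (c i.castSucc) (hκi i) hci.le
    have h4 : S.P i.castSucc * 2 ^ c i.castSucc ≤
        S.Q * S.D ^ (c i.castSucc + κ / 8) * 2 ^ c (Fin.last m) :=
      mul_le_mul hP h2 (Real.rpow_nonneg (by norm_num) _)
        (mul_nonneg hQp.le (Real.rpow_nonneg hDp.le _))
    have h5 : S.P i.castSucc ≤ S.P i.castSucc * 2 ^ c i.castSucc :=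
      le_mul_of_one_le_right hP0 (Real.one_le_rpow (by norm_num) hci.le)
    exact ⟨hP0, by linarith, by linarith⟩

theorem base_cells (m : ℕ) (c : Fin (m + 1) → ℝ) (hc : StrictMono c) (hc0 : ∀ i, 0 < c i)
    (s : ℝ) (hs0 : 0 < s) (hs : s < c (Fin.last m)) (hs1 : ∀ i : Fin m, c i.castSucc < s)
    (hD : ∀ ε : ℝ, 0 < ε → DP m (fun i => c i.castSucc) ε) : ∀ ε : ℝ, 0 < ε →
    ∃ x0 : ℝ, 0 < x0 ∧ ∃ C : ℕ, ∃ σ : ℝ, 0 < σ ∧ ∃ D0 : ℝ,
    ∀ (S : Sys (m + 1)) (N : ℕ) [NeZero N], D0 ≤ S.D → Good S c N x0 →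
    ∀ δ : ℝ, S.D ^ (-σ) ≤ δ → δ ≤ 1 / 2 →
    ∀ X : ℝ, (S.Q : ℝ) ≤ X → S.Q * S.D ^ (s - σ) ≤ X →
    ∀ (f0 : ZMod N → ℂ) (f : Fin (m + 1) → ZMod N → ℂ),
    Adm δ⁻¹ S.Q f0 → (∀ i, Adm δ⁻¹ S.Q (f i)) → Adm δ⁻¹ X (f (Fin.last m)) →
    δ ≤ ‖form S c 1 f0 f‖ →
    ∃ θ : ZMod N → Fin m → ℝ, (∀ x i, |θ x i| ≤ δ⁻¹ ^ C / S.Q) ∧
      ∀ K : ℕ, 1 ≤ K → (K : ℝ) ≤ S.D ^ (1 - ε) →
        δ ^ C ≤ 𝔼 x, locCorr S c (f (Fin.last m)) θ K x := by
  intro ε hε
  obtain ⟨x0', hx0', C', σ', hσ', D0', H⟩ := hD ε hε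
  obtain ⟨κ1, hκ1, hκ1'⟩ := exists_gap7 (fun i : Fin m => s - c i.castSucc)
    (fun i => sub_pos.mpr (hs1 i))
  obtain ⟨κ, hκdef⟩ : ∃ κ, κ = min κ1 (min s (c (Fin.last m) - s)) := ⟨_, rfl⟩
  have hκ : 0 < κ := by
    rw [hκdef]
    exact lt_min hκ1 (lt_min hs0 (sub_pos.mpr hs))
  have hκi : ∀ i : Fin m, κ ≤ s - c i.castSucc := fun i => by
    refine le_trans ?_ (hκ1' i)
    rw [hκdef]
    exact min_le_left _ _
  have hκs : κ ≤ s := by
    rw [hκdef]
    exact (min_le_right _ _).trans (min_le_left _ _)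
  have hκc : κ ≤ c (Fin.last m) - s := by
    rw [hκdef]
    exact (min_le_right _ _).trans (min_le_right _ _)
  obtain ⟨M, hM⟩ : ∃ M : ℝ, M = 2 ^ (c (Fin.last m)) + 3 := ⟨_, rfl⟩
  have hM1 : 1 ≤ M := by
    have : (0 : ℝ) < 2 ^ c (Fin.last m) := Real.rpow_pos_of_pos (by norm_num) _
    rw [hM]
    linarith
  refine ⟨min x0' (κ / 8), lt_min hx0' (by positivity), 4 * C' + 3, min (σ' / 4) (κ / 40),
    lt_min (by positivity) (by positivity), max D0' (M ^ (2 / κ)), ?_⟩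
  intro S N _ hD0 hG δ hδ0 hδ1 X hX1 hX2 f0 f hf0 hf hfm hform
  have hDM1 : M ^ (2 / κ) ≤ S.D := (le_max_right _ _).trans hD0
  have hD1 : 1 ≤ S.D := (Real.one_le_rpow hM1 (by positivity)).trans hDM1
  have hDp : 0 < S.D := by linarith
  have hDM : M ≤ S.D ^ (κ / 2) := by
    have h1 : (M ^ (2 / κ)) ^ (κ / 2) = M := by
      rw [← Real.rpow_mul (by linarith), show 2 / κ * (κ / 2) = 1 by field_simp, Real.rpow_one]
    rw [← h1]
    exact Real.rpow_le_rpow (Real.rpow_nonneg (by linarith) _) hDM1 (by positivity)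
  have hδp : 0 < δ := lt_of_lt_of_le (Real.rpow_pos_of_pos hDp _) hδ0
  obtain ⟨R, hRdef⟩ : ∃ R : ℕ, R = ⌊δ ^ 4 * min X (S.Q * S.D ^ s)⌋₊ := ⟨_, rfl⟩
  obtain ⟨hQp, hXp, hR1, hQR, herr, hP⟩ := sizes7 c hc hc0 s κ (min x0' (κ / 8))
    (min (σ' / 4) (κ / 40)) M hκ hκi hκs hκc (min_le_right _ _)
    (lt_min (by positivity) (by positivity)) (min_le_right _ _) hM S N hG hD1 hDM δ hδp hδ0 hδ1
    X hX2 R hRdef
  -- the average of the local forms is large
  have hloc : δ / 2 ≤ 𝔼 r, ‖loc7 S c f0 f R r‖ := by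
    have h1 := form_loc7 S c f0 hf0.bdd f (fun i x => (hf i).bdd x) δ⁻¹ X hXp hfm.tv R hR1
    have h2 : ‖form S c 1 f0 f‖ ≤ ‖form S c 1 f0 f - 𝔼 r, loc7 S c f0 f R r‖ +
        ‖𝔼 r, loc7 S c f0 f R r‖ := by
      have := norm_add_le (form S c 1 f0 f - 𝔼 r, loc7 S c f0 f R r) (𝔼 r, loc7 S c f0 f R r)
      rwa [sub_add_cancel] at this
    have h3 := norm_expect_le5 univ (fun r : ZMod N => loc7 S c f0 f R r)
    linarith
  -- bounds for the sequences
  have hab : ∀ i : Fin m, ∀ k ∈ S.I, 0 ≤ S.a c i.castSucc k ∧ S.a c i.castSucc k ≤ (R : ℤ) := by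
    intro i k hk
    obtain ⟨h1, h2, h3⟩ := hP i
    have h4 := a_bound7 S c i.castSucc (hc0 _).le h1 hDp hG.ρ0 hG.ρ1 hG.u2 hk
    refine ⟨h4.1, ?_⟩
    exact_mod_cast h4.2.trans h2
  -- the smaller system is good
  have hG' : Good S.init (fun i => c i.castSucc) (2 * R) x0' := by
    have hx : min x0' (κ / 8) ≤ x0' := min_le_left _ _
    refine ⟨hG.ρ0, hG.ρ1, hG.Q1, hG.Q2, fun i => ?_, fun i => ?_, fun i => ?_, ?_, hG.u1, hG.u2,
      ?_⟩
    · refine le_trans ?_ (hG.P1 i.castSucc)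
      exact mul_le_mul_of_nonneg_left
        (Real.rpow_le_rpow_of_exponent_le hD1 (by linarith)) hQp.le
    · refine le_trans (hG.P2 i.castSucc) ?_
      exact mul_le_mul_of_nonneg_left
        (Real.rpow_le_rpow_of_exponent_le hD1 (by linarith)) hQp.le
    · obtain ⟨h1, h2, h3⟩ := hP i
      have h4 : (1 : ℝ) ≤ S.D ^ x0' := Real.one_le_rpow hD1 hx0'.le
      have h5 : (R : ℝ) ≤ ((2 * R : ℕ) : ℝ) * S.D ^ x0' := by
        push_cast
        have h6 : (0 : ℝ) ≤ R := Nat.cast_nonneg _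
        nlinarith
      exact h3.trans h5
    · have h6 : (0 : ℝ) ≤ R := Nat.cast_nonneg _
      push_cast
      show (S.Q : ℝ) ≤ 2 * R
      linarith
    · refine le_trans ?_ hG.T1
      exact Real.rpow_le_rpow_of_exponent_le hD1 (by linarith)
  have hδ4 : S.D ^ (-σ') ≤ δ ^ 4 := by
    have h1 : S.D ^ (-σ') ≤ (S.D ^ (-(min (σ' / 4) (κ / 40)))) ^ 4 := by
      rw [← Real.rpow_natCast, ← Real.rpow_mul hDp.le]
      refine Real.rpow_le_rpow_of_exponent_le hD1 ?_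
      have := min_le_left (σ' / 4) (κ / 40)
      push_cast
      linarith
    exact h1.trans (pow_le_pow_left₀ (Real.rpow_nonneg hDp.le _) hδ0 4)
  have hu : (1 : ℝ) ≤ δ⁻¹ := by
    rw [le_inv_comm₀ (by norm_num) hδp]
    linarith
  -- the choice of the phases
  have key : ∀ r : ZMod N, ∃ θ : Fin m → ℝ, (∀ i, |θ i| ≤ δ⁻¹ ^ (4 * C' + 3) / S.Q) ∧
      (δ / 4 ≤ ‖loc7 S c f0 f R r‖ → ∀ K : ℕ, 1 ≤ K → (K : ℝ) ≤ S.D ^ (1 - ε) →
        δ ^ (4 * C') ≤ locCorr S c (f (Fin.last m)) (fun _ => θ) K r) := by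
    intro r
    by_cases hr : δ / 4 ≤ ‖loc7 S c f0 f R r‖
    · obtain ⟨θ, h1, h2⟩ := good_pt7 c x0' C' σ' D0' ε H S N ((le_max_left _ _).trans hD0) R hR1
        hQp (by linarith) hG' δ hδp hδ4 hδ1 f0 f hf0 hf (fun i k hk => (hab i k hk).1)
        (fun i k hk => (hab i k hk).2) r hr
      refine ⟨θ, fun i => (h1 i).trans ?_, fun _ => h2⟩
      exact div_le_div_of_nonneg_right (pow_le_pow_right₀ hu (by omega)) hQp.le
    · refine ⟨fun _ => 0, fun i => ?_, fun h => absurd h hr⟩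
      rw [abs_zero]
      positivity
  choose θ hθ1 hθ2 using key
  refine ⟨θ, hθ1, fun K hK1 hK2 => ?_⟩
  have hpt : ∀ x ∈ (univ : Finset (ZMod N)), δ ^ (4 * C') * (‖loc7 S c f0 f R x‖ - δ / 4) ≤
      locCorr S c (f (Fin.last m)) θ K x := by
    intro x _
    have hl1 : ‖loc7 S c f0 f R x‖ ≤ 1 := by
      refine norm_expect_le_of5 _ _ zero_le_one fun k _ => ?_
      rw [norm_mul]
      refine mul_le_one₀ ((hf _).bdd _) (norm_nonneg _) ?_
      refine norm_expect_le_of5 _ _ zero_le_one fun t _ => ?_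
      rw [norm_mul, norm_prod]
      refine mul_le_one₀ (hf0.bdd _) (prod_nonneg fun _ _ => norm_nonneg _) ?_
      exact prod_le_one (fun _ _ => norm_nonneg _) fun i _ => (hf _).bdd _
    by_cases hr : δ / 4 ≤ ‖loc7 S c f0 f R x‖
    · have h1 := hθ2 x hr K hK1 hK2
      have h2 : locCorr S c (f (Fin.last m)) θ K x =
        locCorr S c (f (Fin.last m)) (fun _ => θ x) K x := rfl
      rw [h2]
      refine le_trans ?_ h1
      exact mul_le_of_le_one_right (by positivity) (by linarith)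
    · have h1 : 0 ≤ locCorr S c (f (Fin.last m)) θ K x :=
        expect_nonneg fun _ _ => norm_nonneg _
      push Not at hr
      refine le_trans ?_ h1
      exact mul_nonpos_of_nonneg_of_nonpos (by positivity) (by linarith)
  refine le_trans ?_ (expect_le_expect hpt)
  rw [← mul_expect, expect_sub_distrib, expect_const (univ_nonempty)]
  have h1 : δ / 4 ≤ 𝔼 r, ‖loc7 S c f0 f R r‖ - δ / 4 := by linarith
  refine le_trans ?_ (mul_le_mul_of_nonneg_left h1 (by positivity))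
  rw [pow_add]
  refine mul_le_mul_of_nonneg_left ?_ (by positivity)
  nlinarith [pow_pos hδp 2]

end

end Pool.Agent.Helper57.NX
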